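import Pool.Agent.H40.Tr4

set_option autoImplicit false

namespace Pool.Agent.Results.MP_42b9e0_lc.Model

open Pool.Agent.H40.Bspt Pool.Agent.H40.Jz Pool.Agent.H40.Js Set Filter Tr

abbrev V : Type := ZMod 2

theorem ex_cyl (n m : ℕ) (u : ℕ → V) (p : ℕ → Prop) : ∃ v, ∀ x,
    (x ∈ cyl n u ∧ ∀ k < m, x (n + k) = 1 ↔ p k) ↔ x ∈ cyl (n + m) v := by
  classical
  have e : ∀ (a : V) (q : Prop), (a = 1 ↔ q) ↔ a = if q then 1 else 0 := fun a q => by
    by_cases h : q <;> simp only [h, if_true, if_false, iff_true, iff_false]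
    revert a; decide
  refine ⟨fun i => if i < n then u i else if p (i - n) then 1 else 0, fun x =>
    ⟨fun ⟨a, b⟩ i hi => ?_, fun a => ⟨fun i hi => (a i (by omega)).trans (if_pos hi),
      fun k hk => (e _ _).2 ((a _ (by omega)).trans (by simp))⟩⟩⟩
  by_cases h : i < n
  · exact (a i h).trans (if_pos h).symm
  · obtain ⟨k, rfl⟩ := Nat.exists_eq_add_of_le (not_lt.1 h)
    exact ((e _ _).1 (b k (by omega))).trans (by simp)

theorem result : ∃ (M : Type) (E : M → M → Prop) (ν : ℕ → M), IsZF E ∧ Numer E ν ∧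
    (∀ a, ¬ IsFin E a → DFBI E ν a) ∧ ∃ A, ¬ IsFin E A ∧ WDF E ν A := by
  have he : Emb (⊥ : AddSubgroup (ℕ → V)) id := ⟨Function.injective_id, fun _ _ => rfl⟩
  obtain ⟨J, hJ⟩ := ex_tr (by decide) he
  refine ⟨J.M, J.E, J.nu, J.zf, J.numer, fun a ha => ?_, J.sA unA, fun e =>
    (cyl_inf 0 (0 : ℕ → V)).mono (subset_univ _) (J.finA.1 e), ?_⟩
  · obtain ⟨g, h | ⟨n, u, B, hB, h⟩⟩ := hJ a ha
    · exact h.dfbi JS.dfbi_om
    have k : ∀ m (p : ℕ → Prop), ∃ v, {x ∈ id '' (cyl n u \ B) | ∀ k < m, x (n + k) = 1 ↔ p k} =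
        cyl (n + m) v \ B := fun m p => (ex_cyl n m u p).imp fun v hv => Set.ext fun x => by
      rw [image_id, Set.mem_sdiff, ← hv, and_right_comm]; rfl
    refine h.dfbi (JS.dfbi_of (t := .a) (fun x k => x (n + k) = 1) (fun m p => ?_) (fun m p => ?_)
      fun g k => ?_)
    · obtain ⟨v, hv⟩ := k m p
      exact (hv ▸ sym0 (s0_diff hB) :)
    · obtain ⟨v, hv⟩ := k m p
      exact (hv ▸ (cyl_inf _ v).sdiff hB :)
    · obtain ⟨e, rfl, a⟩ := g.2
      exact a.mono fun x b => iff_of_eq (congrArg (fun y : ℕ → V => y (n + k) = 1) (b.trans (add_zero x)))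
  · rintro ⟨σ, h1, h2, h3⟩
    choose s _ hs using fun n => J.subA (h2 n)
    obtain ⟨F, h4, -, h5⟩ := ev.1 (J.seq_el (t := .w .a) h1 hs)
    refine infinite_of_injective_forall_mem (f := fun n => (s n).1) (fun m n e => h3 ?_)
      (fun n => ?_) (fin_sat h4)
    · rw [hs, hs, Subtype.ext e]
    · intro a b e ha
      have := (smul_mem (g := sw a b)).2 ha
      rw [sw_left] at this
      exact Eq.mp (congrArg (fun y : PS _ (ℕ → V) => b ∈ y.1) (h5 _ (pr_sw e) n)) this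

end Pool.Agent.Results.MP_42b9e0_lc.Model
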